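import Pool.Agent.Q75.BS.Stm

set_option autoImplicit false

/-!
Project BS, job FIN: limits in the finite set of values at the vertices give a constant function.
-/

namespace Pool.Agent.Q176.BS

open Complex Set MeasureTheory Filter Topology Pool.Agent.W780.PG Pool.Agent.W780.BB
open Pool.Agent.TH103.BL Pool.Agent.Q75.BS

open scoped Real ComplexConjugate

/-- two properties which hold almost everywhere near a point hold together somewhere -/
theorem pick {P Q : ℂ → Prop} (hP : ∀ᵐ z : ℂ, P z) (hQ : ∀ᵐ z : ℂ, Q z) {U : Set ℂ} {z0 : ℂ}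
    (hU : U ∈ 𝓝 z0) : ∃ z ∈ U, P z ∧ Q z := by
  have hdense := Measure.dense_of_ae (hP.and hQ)
  obtain ⟨z, h1, h2⟩ := hdense.inter_nhds_nonempty hU
  exact ⟨z, h2, h1⟩

/-- limits at near points are near -/
theorem lim_near {g : ℂ → ℝ} {z : ℂ} {a : ℝ} (h : Lim g z a) {η : ℝ} (hη : 0 < η) :
    ∃ ρ : ℝ, 0 < ρ ∧ ∀ (y : ℂ) (b : ℝ), ‖y - z‖ < ρ → Lim g y b → |b - a| ≤ 2 * η := by
  obtain ⟨ρ, hρ, h1⟩ := h η hη
  refine ⟨ρ, hρ, fun y b hy hb => ?_⟩
  obtain ⟨σ, hσ, h2⟩ := hb η hη
  have hc : Continuous fun w : ℂ => ‖w - z‖ := by fun_prop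
  have hc2 : Continuous fun w : ℂ => ‖w - y‖ := by fun_prop
  have hev : ∀ᶠ w in 𝓝 y, ‖w - z‖ < ρ ∧ ‖w - y‖ < σ := by
    filter_upwards [(hc.tendsto y).eventually_lt_const hy,
      (hc2.tendsto y).eventually_lt_const (by simpa using hσ)] with w h3 h4 using ⟨h3, h4⟩
  obtain ⟨w, ⟨hw1, hw2⟩, h3, h4⟩ := pick h1 h2 hev
  have h5 := h3 hw1
  have h6 := h4 hw2
  calc |b - a| = |(g w - a) - (g w - b)| := by congr 1; ring
    _ ≤ |g w - a| + |g w - b| := abs_sub _ _
    _ ≤ 2 * η := by linarith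

theorem t_FIN : Pool.Agent.Q75.BS.S_FIN := by
  intro n p hp f hf c h1 h2
  refine ⟨c 0, ?_⟩
  have hopen := reg_open hp
  have hconv : Convex ℝ (reg p) := (hB n p hp).2.2.1
  have key : ∀ᵐ θ : ℝ, ∀ᵐ z : ℂ, z ∈ region p → f (z, θ) = c 0 := by
    filter_upwards [h1, h2 0] with θ hl hv
    choose! j hj using hl
    set v : ℂ → ℝ := fun z => c (j z) with hvdef
    have hcont : ContinuousOn v (reg p) := by
      intro z hz
      rw [Metric.continuousWithinAt_iff]
      intro ε hε
      obtain ⟨ρ, hρ, h3⟩ := lim_near (hj z hz) (η := ε / 4) (by positivity)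
      refine ⟨ρ, hρ, fun y hy hyz => ?_⟩
      rw [dist_eq_norm] at hyz
      have h4 := h3 y (v y) hyz (hj y hy)
      rw [Real.dist_eq]
      calc |v y - v z| ≤ 2 * (ε / 4) := h4
        _ < ε := by linarith
    have hfin : (Set.range c).Finite := Set.finite_range c
    have : Finite (Set.range c) := hfin.to_subtype
    have hdisc : DiscreteTopology (Set.range c) := inferInstance
    obtain ⟨y, hy, hyc⟩ := hconv.isPreconnected.eqOn_const_of_mapsTo (T := Set.range c) ⟨hdisc⟩
      hcont (fun z _ => ⟨j z, rfl⟩) ⟨c 0, ⟨0, rfl⟩⟩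
    -- the value is the value at the vertex
    have hy0 : y = c 0 := by
      by_contra hne
      have hpos : 0 < |y - c 0| := abs_pos.2 (sub_ne_zero.2 hne)
      obtain ⟨ρ, hρ, h3⟩ := hv (|y - c 0| / 4) (by positivity)
      obtain ⟨z, hz, hzr⟩ := near_vertex hp 0 hρ
      have h4 : Lim (sli f θ) z y := by
        have := hj z hz
        rw [show c (j z) = y from hyc hz] at this
        exact this
      obtain ⟨σ, hσ, h5⟩ := h4 (|y - c 0| / 4) (by positivity)
      have hc : Continuous fun w : ℂ => ‖w - p 0‖ := by fun_prop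
      have hc2 : Continuous fun w : ℂ => ‖w - z‖ := by fun_prop
      have hev : ∀ᶠ w in 𝓝 z, w ∈ reg p ∧ ‖w - p 0‖ < ρ ∧ ‖w - z‖ < σ := by
        filter_upwards [hopen.mem_nhds hz, (hc.tendsto z).eventually_lt_const hzr,
          (hc2.tendsto z).eventually_lt_const (by simpa using hσ)] with w h6 h7 h8
          using ⟨h6, h7, h8⟩
      obtain ⟨w, ⟨hw1, hw2, hw3⟩, h6, h7⟩ := pick h3 h5 hev
      have h8 := h6 hw1 hw2
      have h9 := h7 hw3
      have h10 : |y - c 0| ≤ |y - c 0| / 4 + |y - c 0| / 4 := by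
        calc |y - c 0| = |(sli f θ w - c 0) - (sli f θ w - y)| := by congr 1; ring
          _ ≤ |sli f θ w - c 0| + |sli f θ w - y| := abs_sub _ _
          _ ≤ _ := add_le_add h8 h9
      linarith
    have hlim : ∀ z ∈ reg p, Lim (sli f θ) z (c 0) := by
      intro z hz
      have := hj z hz
      rw [show c (j z) = y from hyc hz, hy0] at this
      exact this
    have hm : ∀ m : ℕ, ∀ᵐ z : ℂ, z ∈ reg p → |f (z, θ) - c 0| ≤ 1 / ((m : ℝ) + 1) := by
      intro m
      rw [ae_iff]
      refine measure_null_of_locally_null _ fun x hx => ?_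
      have hx' : x ∈ reg p := by
        by_contra hxn
        exact hx fun h => absurd h hxn
      obtain ⟨ρ, hρ, h3⟩ := hlim x hx' (1 / ((m : ℝ) + 1)) (by positivity)
      rw [ae_iff] at h3
      refine ⟨_, ?_, h3⟩
      have hc2 : Continuous fun w : ℂ => ‖w - x‖ := by fun_prop
      have hev : ∀ᶠ w in 𝓝 x, ‖w - x‖ < ρ :=
        (hc2.tendsto x).eventually_lt_const (by simpa using hρ)
      filter_upwards [mem_nhdsWithin_of_mem_nhds hev, self_mem_nhdsWithin] with w h4 h5
      intro h6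
      exact h5 fun _ => h6 h4
    filter_upwards [ae_all_iff.2 hm] with z hz hzr
    rw [region_eq hp] at hzr
    have h4 : |f (z, θ) - c 0| ≤ 0 :=
      ge_of_tendsto' tendsto_one_div_add_atTop_nhds_zero_nat fun m => hz m hzr
    exact sub_eq_zero.1 (abs_eq_zero.1 (le_antisymm h4 (abs_nonneg _)))
  have hmeas : MeasurableSet {x : ℂ × ℝ | x.1 ∈ region p → f (x.1, x.2) = c 0} := by
    have e1 : {x : ℂ × ℝ | x.1 ∈ region p → f (x.1, x.2) = c 0} =
        (Prod.fst ⁻¹' (region p))ᶜ ∪ f ⁻¹' {c 0} := by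
      ext x
      simp only [mem_setOf_eq, mem_union, mem_compl_iff, mem_preimage, mem_singleton_iff]
      tauto
    rw [e1]
    have e2 : MeasurableSet (region p) := isOpen_interior.measurableSet
    exact (measurable_fst e2).compl.union (hf (measurableSet_singleton _))
  have h3 := (Measure.ae_ae_comm (μ := (volume : Measure ℂ)) (ν := (volume : Measure ℝ))
    (p := fun z θ => z ∈ region p → f (z, θ) = c 0) hmeas).2 key
  exact (Measure.ae_prod_iff_ae_ae (p := fun x : ℂ × ℝ => x.1 ∈ region p → f x = c 0)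
    hmeas).2 h3

end Pool.Agent.Q176.BS
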